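import Pool.Agent.Run7.h271.DE.Lam

/-! # The set `{y | lam (φ y) = y ^ N}` is infinite and discrete (helper271, for MP_db9079_lc) -/

set_option autoImplicit false

namespace Pool.Agent.Run7.h271.DE

open Function

variable {p : ℕ} [hp : Fact p.Prime]

theorem le_order {k : ℤ} {x : LaurentSeries (ZMod p)} (hx : x ≠ 0) (h : V k x) : k ≤ x.order := by
  by_contra hc
  exact coeff_order_ne hx (h _ (not_le.1 hc))

/-- one-units have all roots of order prime to `p` -/
theorem root (N : ℕ) (hN : ¬ p ∣ N) (u : LaurentSeries (ZMod p)) (hu : V 1 (u - 1)) :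
    ∃ w : LaurentSeries (ZMod p), V 1 (w - 1) ∧ w ^ N = u := by
  obtain ⟨w, h1, h2⟩ := solve N hN (fun _ => u) (fun k _ w w' _ => by
    simp only [sub_self]
    exact V_zero _) hu
  exact ⟨w, h1, h2.symm⟩

/-- the `(p - 1)`-st power of a unit is a one-unit -/
theorem unit_pow {u : LaurentSeries (ZMod p)} (h0 : V 0 u) (hc0 : u.coeff 0 ≠ 0) :
    V 1 (u ^ (p - 1) - 1) := by
  have e1 : V 1 (u - HahnSeries.C (u.coeff 0)) := by
    intro i hi
    rw [HahnSeries.coeff_sub, HahnSeries.C_apply]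
    rcases (show i < 0 ∨ i = 0 by omega) with h | rfl
    · rw [h0 i h, HahnSeries.coeff_single_of_ne h.ne, sub_zero]
    · rw [HahnSeries.coeff_single_same, sub_self]
  have e2 : V 0 (HahnSeries.C (u.coeff 0) : LaurentSeries (ZMod p)) := by
    intro i hi
    rw [HahnSeries.C_apply, HahnSeries.coeff_single_of_ne hi.ne]
  have e3 := V_pow_sub e1 h0 e2 (p - 1)
  rwa [← map_pow, ZMod.pow_card_sub_one_eq_one hc0, map_one] at e3

/-- a power of `t` -/
noncomputable def T (n : ℤ) : LaurentSeries (ZMod p) := HahnSeries.single n 1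

theorem T_mul (a b : ℤ) : (T a : LaurentSeries (ZMod p)) * T b = T (a + b) := by
  rw [T, T, HahnSeries.single_mul_single, one_mul, T]

theorem T_zero : (T 0 : LaurentSeries (ZMod p)) = 1 := rfl

theorem V_T (n : ℤ) : V n (T n : LaurentSeries (ZMod p)) := fun i hi => by
  rw [T, HahnSeries.coeff_single_of_ne hi.ne]

theorem T_ne (n : ℤ) : (T n : LaurentSeries (ZMod p)) ≠ 0 := by
  rw [T]
  exact HahnSeries.single_ne_zero one_ne_zero

theorem T_pow (n : ℤ) (k : ℕ) : (T n : LaurentSeries (ZMod p)) ^ k = T (k * n) := by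
  rw [T, T, HahnSeries.single_pow, one_pow, nsmul_eq_mul]

theorem order_T (n : ℤ) : (T n : LaurentSeries (ZMod p)).order = n := by
  rw [T]
  exact HahnSeries.order_single one_ne_zero

theorem lam_T {q : ℕ} (hq : 0 < q) (n : ℤ) :
    lam q hq (T (q * n) : LaurentSeries (ZMod p)) = T n := by
  have hq0 : (q : ℤ) ≠ 0 := by exact_mod_cast hq.ne'
  ext i
  rw [lam_coeff, T, T]
  by_cases h : i = n
  · rw [h, HahnSeries.coeff_single_same, HahnSeries.coeff_single_same]
  · rw [HahnSeries.coeff_single_of_ne h, HahnSeries.coeff_single_of_ne]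
    exact fun h1 => h (mul_left_cancel₀ hq0 h1)

/-- `φ` multiplies the valuation by `m` -/
def Mult (m : ℕ) (φ : LaurentSeries (ZMod p) →+* LaurentSeries (ZMod p)) : Prop :=
  ∀ x, x ≠ 0 → (φ x).order = m * x.order

theorem V_map {m : ℕ} {φ : LaurentSeries (ZMod p) →+* LaurentSeries (ZMod p)} (hφ : Mult m φ)
    {k : ℤ} {x : LaurentSeries (ZMod p)} (h : V k x) : V (m * k) (φ x) := by
  by_cases hx : x = 0
  · rw [hx, map_zero]
    exact V_zero _
  · have h1 := le_order hx h
    have h2 := hφ x hx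
    refine (V_order (φ x)).mono ?_
    rw [h2]
    exact mul_le_mul_of_nonneg_left h1 (by positivity)

section
variable {q N : ℕ} (hq : 0 < q) (hN : ¬ p ∣ N) (hN2 : 2 ≤ N)
  {φ : LaurentSeries (ZMod p) →+* LaurentSeries (ZMod p)} (hφ : Mult (q * N) φ)

include hN hN2 hφ

/-- solutions of `lam (φ y) = y ^ N` of valuation `(p - 1) k` -/
theorem exists_sol (k : ℕ) : ∃ y : LaurentSeries (ZMod p), y ≠ 0 ∧
    y.order = ((p - 1 : ℕ) : ℤ) * k ∧ lam q hq (φ y) = y ^ N := by
  obtain ⟨n, hn⟩ : ∃ n : ℕ, n = (p - 1) * k := ⟨_, rfl⟩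
  have hV : ∀ (j : ℤ) (x : LaurentSeries (ZMod p)), V j x → V (N * j) (lam q hq (φ x)) := by
    intro j x hx
    refine V_lam hq ?_
    have := V_map hφ hx
    push_cast at this
    rwa [mul_assoc] at this
  -- the start
  have hstart : V (N * (n : ℤ) + 1) (lam q hq (φ (T n)) - T (N * (n : ℤ))) := by
    rw [← lam_T hq (N * (n : ℤ)), ← lam_sub]
    refine V_lam' hq ?_
    obtain ⟨g, hg⟩ : ∃ g, g = φ (T 1) * T (-((q * N : ℕ) : ℤ)) := ⟨_, rfl⟩
    have h1 : φ (T 1) = T ((q * N : ℕ) : ℤ) * g := by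
      rw [hg, mul_comm, mul_assoc, T_mul, neg_add_cancel, T_zero, mul_one]
    have hf0 : φ (T 1) ≠ 0 := fun h => T_ne 1 ((map_eq_zero φ).1 h)
    have ho : g.order = 0 := by
      rw [hg, HahnSeries.order_mul hf0 (T_ne _), hφ _ (T_ne 1), order_T, order_T]
      ring
    have hg0 : g ≠ 0 := by
      rw [hg]
      exact mul_ne_zero hf0 (T_ne _)
    have hgV : V 0 g := by
      have := V_order g
      rwa [ho] at this
    have hgc : g.coeff 0 ≠ 0 := by
      have := coeff_order_ne hg0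
      rwa [ho] at this
    have h2 : V 1 (g ^ n - 1) := by
      rw [hn, pow_mul]
      exact V_one_pow (le_refl 1) (unit_pow hgV hgc) k
    have h3 : φ (T n) = T (q * (N * (n : ℤ))) * g ^ n := by
      have e : (T (n : ℤ) : LaurentSeries (ZMod p)) = T 1 ^ n := by
        rw [T_pow, mul_one]
      rw [e, map_pow, h1, mul_pow, T_pow]
      congr 2
      push_cast
      ring
    rw [h3]
    have e : T (q * (N * (n : ℤ))) * g ^ n - T (q * (N * (n : ℤ))) =
        T (q * (N * (n : ℤ))) * (g ^ n - 1) := by ring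
    rw [e]
    exact V_mul (V_T _) h2
  -- the contraction
  obtain ⟨w, hw1, hw2⟩ := solve N hN
    (fun w => T (-(N * (n : ℤ))) * lam q hq (φ (T n * w)))
    (fun j hj w w' hw => by
      have e : T (-(N * (n : ℤ))) * lam q hq (φ (T n * w)) -
          T (-(N * (n : ℤ))) * lam q hq (φ (T n * w')) =
          T (-(N * (n : ℤ))) * lam q hq (φ (T n * (w - w'))) := by
        rw [mul_sub, map_sub, lam_sub]
        ring
      rw [e]
      refine (V_mul (V_T _) (hV _ _ (V_mul (V_T _) hw))).mono ?_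
      have h2 : (2 : ℤ) ≤ N := by exact_mod_cast hN2
      nlinarith)
    (by
      rw [mul_one]
      have e : T (-(N * (n : ℤ))) * lam q hq (φ (T n)) - (1 : LaurentSeries (ZMod p)) =
          T (-(N * (n : ℤ))) * (lam q hq (φ (T n)) - T (N * (n : ℤ))) := by
        rw [mul_sub, T_mul, neg_add_cancel, T_zero]
      rw [e]
      have := V_mul (V_T (p := p) (-(N * (n : ℤ)))) hstart
      rwa [neg_add_cancel_left] at this)
  have hw0 : w ≠ 0 := by
    rintro rfl
    have := hw1 0 (by norm_num)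
    rw [zero_sub, HahnSeries.coeff_neg, HahnSeries.coeff_one, if_pos rfl] at this
    simp at this
  have hwo : w.order = 0 := by
    have hc : w.coeff 0 = 1 := by
      have := hw1 0 (by norm_num)
      rw [HahnSeries.coeff_sub, HahnSeries.coeff_one, if_pos rfl, sub_eq_zero] at this
      exact this
    apply le_antisymm
    · exact HahnSeries.order_le_of_coeff_ne_zero (by rw [hc]; exact one_ne_zero)
    · exact le_order hw0 (V_of_one hw1)
  refine ⟨T n * w, mul_ne_zero (T_ne _) hw0, ?_, ?_⟩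
  · rw [HahnSeries.order_mul (T_ne _) hw0, order_T, hwo, hn]
    push_cast
    ring
  · rw [mul_pow, T_pow, ← hw2, ← mul_assoc, T_mul, add_neg_cancel, T_zero, one_mul]

/-- the nonzero solutions are isolated -/
theorem isol (y z : LaurentSeries (ZMod p)) (hy : y ≠ 0) (hz : V 0 z)
    (h1 : lam q hq (φ y) = y ^ N) (h2 : lam q hq (φ (y + y * T 1 * z)) = (y + y * T 1 * z) ^ N) :
    y + y * T 1 * z = y := by
  obtain ⟨s, hs⟩ : ∃ s, s = T 1 * z := ⟨_, rfl⟩
  have e0 : y + y * T 1 * z = y * (1 + s) := by rw [hs]; ring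
  rw [e0] at h2 ⊢
  by_cases hs0 : s = 0
  · rw [hs0, add_zero, mul_one]
  exfalso
  have hs1 : V 1 s := by
    rw [hs]
    exact V_mul (V_T 1) hz
  have hj : 1 ≤ s.order := le_order hs0 hs1
  have h3 : lam q hq (φ (y * s)) = y ^ N * ((1 + s) ^ N - 1) := by
    have e : y * s = y * (1 + s) - y := by ring
    rw [e, map_sub, lam_sub, h1, h2, mul_pow]
    ring
  have h4 : V (N * (y.order + s.order)) (lam q hq (φ (y * s))) := by
    refine V_lam hq ?_
    have := V_map hφ (V_mul (V_order y) (V_order s))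
    push_cast at this
    rwa [mul_assoc] at this
  have h5 : ((1 + s) ^ N - 1).coeff s.order ≠ 0 := by
    have h6 := V_step hj (w := 1) (by rw [sub_self]; exact V_zero _) (V_order s) N
    have h7 := h6 s.order (by omega)
    rw [one_pow, HahnSeries.coeff_sub, sub_eq_zero] at h7
    rw [h7]
    have e : (N : LaurentSeries (ZMod p)) = HahnSeries.C (N : ZMod p) := by
      rw [map_natCast]
    rw [e, HahnSeries.C_mul_eq_smul, HahnSeries.coeff_smul, smul_eq_mul]
    exact mul_ne_zero (fun h => hN ((ZMod.natCast_eq_zero_iff N p).1 h)) (coeff_order_ne hs0)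
  have h8 : (1 + s) ^ N - 1 ≠ 0 := by
    intro h
    rw [h] at h5
    exact h5 rfl
  have h9 : y ^ N * ((1 + s) ^ N - 1) ≠ 0 := mul_ne_zero (pow_ne_zero _ hy) h8
  rw [h3] at h4
  have h10 := le_order h9 h4
  rw [HahnSeries.order_mul (pow_ne_zero _ hy) h8, HahnSeries.order_pow, nsmul_eq_mul] at h10
  have h11 := HahnSeries.order_le_of_coeff_ne_zero h5
  have h12 : (2 : ℤ) ≤ N := by exact_mod_cast hN2
  nlinarith

end

/-- every endomorphism multiplies the valuation by a positive number -/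
theorem exists_mult (φ : LaurentSeries (ZMod p) →+* LaurentSeries (ZMod p)) :
    ∃ m : ℕ, 0 < m ∧ Mult m φ := by
  have hp2 := hp.out.two_le
  have hpN : ¬ p ∣ p ^ 2 - 1 := by
    intro h
    have h1 : p ∣ p ^ 2 := dvd_pow_self p two_ne_zero
    have h2 : p ∣ p ^ 2 - (p ^ 2 - 1) := Nat.dvd_sub h1 h
    have h3 : p ^ 2 - (p ^ 2 - 1) = 1 := by
      have : 1 ≤ p ^ 2 := Nat.one_le_pow _ _ (by omega)
      omega
    rw [h3] at h2
    exact hp.out.one_lt.ne' (Nat.dvd_one.1 h2)
  have hinj : ∀ x, x ≠ 0 → φ x ≠ 0 := fun x hx h => hx ((map_eq_zero φ).1 h)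
  -- one-units go to units
  have hroots : ∀ k : ℕ, ∀ u : LaurentSeries (ZMod p), V 1 (u - 1) →
      ∃ w : LaurentSeries (ZMod p), V 1 (w - 1) ∧ w ^ ((p ^ 2 - 1) ^ k) = u := by
    intro k u hu
    refine root _ (fun h => hpN (hp.out.dvd_of_dvd_pow h)) u hu
  have hone0 : ∀ u : LaurentSeries (ZMod p), V 1 (u - 1) → u ≠ 0 := by
    rintro u hu rfl
    have := hu 0 (by norm_num)
    rw [zero_sub, HahnSeries.coeff_neg, HahnSeries.coeff_one, if_pos rfl] at this
    simp at this
  have hord : ∀ u : LaurentSeries (ZMod p), V 1 (u - 1) → (φ u).order = 0 := by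
    intro u hu
    obtain ⟨k, hk⟩ : ∃ k : ℕ, k = (φ u).order.natAbs := ⟨_, rfl⟩
    obtain ⟨w, hw, hwk⟩ := hroots k u hu
    have h1 : (φ u).order = ((p ^ 2 - 1) ^ k : ℕ) * (φ w).order := by
      rw [← hwk, map_pow, HahnSeries.order_pow, nsmul_eq_mul]
    by_contra hne
    have h2 : (φ w).order ≠ 0 := by
      intro h
      rw [h, mul_zero] at h1
      exact hne h1
    have h3 : (φ u).order.natAbs = (p ^ 2 - 1) ^ k * (φ w).order.natAbs := by
      rw [h1, Int.natAbs_mul, Int.natAbs_natCast]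
    have h4 : 1 ≤ (φ w).order.natAbs := Nat.one_le_iff_ne_zero.2 (Int.natAbs_ne_zero.2 h2)
    have h5 : k < (p ^ 2 - 1) ^ k := by
      refine Nat.lt_pow_self ?_
      have : 2 ^ 2 ≤ p ^ 2 := Nat.pow_le_pow_left hp2 2
      omega
    rw [← hk] at h3
    have h6 : (p ^ 2 - 1) ^ k ≤ k := by
      calc (p ^ 2 - 1) ^ k = (p ^ 2 - 1) ^ k * 1 := (mul_one _).symm
        _ ≤ (p ^ 2 - 1) ^ k * (φ w).order.natAbs := Nat.mul_le_mul_left _ h4
        _ = k := h3.symm
    omega
  have hunit : ∀ u : LaurentSeries (ZMod p), V 1 (u - 1) → V 1 (φ u - 1) := by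
    intro u hu
    obtain ⟨w, hw, hwk⟩ := root (p ^ 2 - 1) hpN u hu
    have h1 : (p ^ 2 - 1) = (p - 1) * (p + 1) := by
      obtain ⟨r, rfl⟩ : ∃ r, p = r + 1 := ⟨p - 1, by omega⟩
      simp only [Nat.add_sub_cancel]
      have : (r + 1) ^ 2 = r * (r + 1 + 1) + 1 := by ring
      omega
    have h2 : (φ w).order = 0 := hord w hw
    have h3 : V 0 (φ w) := by
      have := V_order (φ w)
      rwa [h2] at this
    have h4 : (φ w).coeff 0 ≠ 0 := by
      have := coeff_order_ne (hinj w (hone0 w hw))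
      rwa [h2] at this
    rw [← hwk, map_pow, h1, pow_mul]
    exact V_one_pow (le_refl 1) (unit_pow h3 h4) _
  have hV1 : V 1 (φ (T 1)) := by
    have h1 : V 1 ((1 + T 1 : LaurentSeries (ZMod p)) - 1) := by
      rw [add_sub_cancel_left]
      exact V_T 1
    have h2 := hunit _ h1
    rwa [map_add, map_one, add_sub_cancel_left] at h2
  have hm1 : 1 ≤ (φ (T 1)).order := le_order (hinj _ (T_ne 1)) hV1
  refine ⟨(φ (T 1)).order.toNat, by omega, fun x hx => ?_⟩
  have hmc : (((φ (T 1)).order.toNat : ℕ) : ℤ) = (φ (T 1)).order := Int.toNat_of_nonneg (by omega)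
  rw [hmc]
  -- `x ^ (p - 1) = T (..) * one-unit`
  obtain ⟨u, hu⟩ : ∃ u, u = x * T (-x.order) := ⟨_, rfl⟩
  have hu0 : u ≠ 0 := by
    rw [hu]
    exact mul_ne_zero hx (T_ne _)
  have huo : u.order = 0 := by
    rw [hu, HahnSeries.order_mul hx (T_ne _), order_T, add_neg_cancel]
  have huV : V 0 u := by
    have := V_order u
    rwa [huo] at this
  have huc : u.coeff 0 ≠ 0 := by
    have := coeff_order_ne hu0
    rwa [huo] at this
  have h1 := hord _ (unit_pow huV huc)
  rw [map_pow, HahnSeries.order_pow, nsmul_eq_mul] at h1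
  have h2 : (φ u).order = 0 := by
    rcases mul_eq_zero.1 h1 with h | h
    · exfalso
      have : p - 1 = 0 := by exact_mod_cast h
      omega
    · exact h
  have hTn : ∀ n : ℕ, (φ (T (n : ℤ))).order = n * (φ (T 1)).order := by
    intro n
    have e : (T (n : ℤ) : LaurentSeries (ZMod p)) = T 1 ^ n := by
      rw [T_pow, mul_one]
    rw [e, map_pow, HahnSeries.order_pow, nsmul_eq_mul]
  have hT : ∀ n : ℤ, (φ (T n)).order = n * (φ (T 1)).order := by
    intro n
    obtain ⟨k, rfl | rfl⟩ := n.eq_nat_or_neg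
    · exact hTn k
    · have h3 : (T (-(k : ℤ)) : LaurentSeries (ZMod p)) * T k = 1 := by
        rw [T_mul, neg_add_cancel, T_zero]
      have h4 := congrArg φ h3
      rw [map_mul, map_one] at h4
      have h5 := HahnSeries.order_mul (hinj _ (T_ne (p := p) (-(k : ℤ))))
        (hinj _ (T_ne (p := p) (k : ℤ)))
      rw [h4, HahnSeries.order_one, hTn] at h5
      linarith
  have h3 : x = T x.order * u := by
    rw [hu, mul_comm, mul_assoc, T_mul, neg_add_cancel, T_zero, mul_one]
  have h4 : (φ x).order = (φ (T x.order)).order + (φ u).order := by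
    conv_lhs => rw [h3]
    rw [map_mul, HahnSeries.order_mul (hinj _ (T_ne _)) (hinj _ hu0)]
  rw [h4, h2, hT]
  ring

end Pool.Agent.Run7.h271.DE
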