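import Pool.Agent.Run7.h755.MG.Form
import Pool.Agent.Run7.h271.DE.Endo

/-! # The formula for `{y | lam (φ y) = y ^ N}` (helper271, for MP_db9079_lc) -/

set_option autoImplicit false

namespace Pool.Agent.Run7.h271.DE

open Function
open Pool.Agent.Y924.EL Pool.Agent.Y924.UF
open Pool.Agent.Results.MP_db9079_lc.UniformFiniteness

variable {p : ℕ} [hp : Fact p.Prime]

/-- `((f(y) - y ^ m) w ^ q)_0 = 0` for all `w`, if `θ(y, f(y))` is the graph of `f` -/
def DF (p m q : ℕ) (θ : Fm) : Fm :=
  .ex 100 (.and (.eq 100 0) (.ex 101 (.and (ren (· + 100) θ) (.ex 30 (.and (powC m 100 30)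
    (.ex 31 (.and (.add 31 30 101) (.neg (.ex 32 (.ex 33 (.and (powC q 32 33)
      (.neg (Pool.Agent.Run7.h755.MG.ZF p 31 33)))))))))))))

theorem sat_DF (O : Set (LaurentSeries (ZMod p))) (m q : ℕ) (θ : Fm)
    (v : ℕ → LaurentSeries (ZMod p)) (hv : v 64 = HahnSeries.single (1 : ℤ) (1 : ZMod p)) :
    Sat O (DF p m q θ) v ↔ ∃ z, Sat O θ (update (update (fun i => v (i + 100)) 0 (v 0)) 1 z) ∧
      ∀ w : LaurentSeries (ZMod p), ((z - v 0 ^ m) * w ^ q).coeff 0 = 0 := by
  have hinj : Injective (fun i : ℕ => i + 100) := fun i j h => by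
    have : i + 100 = j + 100 := h
    omega
  have hc : ∀ c d : LaurentSeries (ZMod p), (update (update v 100 c) 101 d) ∘
      (fun i : ℕ => i + 100) = update (update (fun i => v (i + 100)) 0 c) 1 d := by
    intro c d
    have e1 := Function.update_comp_eq_of_injective (update v 100 c) hinj 1 d
    have e2 := Function.update_comp_eq_of_injective v hinj 0 c
    have e3 : (update v 100 c) ∘ (fun i : ℕ => i + 100) = update (fun i => v (i + 100)) 0 c := e2
    rw [e3] at e1
    exact e1
  have s1 : ∀ a b c d e f : LaurentSeries (ZMod p),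
      Sat O (Pool.Agent.Run7.h755.MG.ZF p 31 33)
        (update (update (update (update (update (update v 100 a) 101 b) 30 c) 31 d) 32 e) 33 f) ↔
      (d * f).coeff 0 = 0 := by
    intro a b c d e f
    rw [Pool.Agent.Run7.h755.MG.sat_ZF O (by norm_num) (by norm_num) _ (by
      rw [update_of_ne (by norm_num), update_of_ne (by norm_num), update_of_ne (by norm_num),
        update_of_ne (by norm_num), update_of_ne (by norm_num), update_of_ne (by norm_num), hv]),
      update_self, update_of_ne (show 31 ≠ 33 by norm_num),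
      update_of_ne (show 31 ≠ 32 by norm_num), update_self]
  have s2 : ∀ a b c d e f : LaurentSeries (ZMod p),
      Sat O (powC q 32 33)
        (update (update (update (update (update (update v 100 a) 101 b) 30 c) 31 d) 32 e) 33 f) ↔
      e ^ q = f := by
    intro a b c d e f
    rw [Pool.Agent.Y383.UF.sat_powC O (by norm_num) (by norm_num), update_self,
      update_of_ne (show 32 ≠ 33 by norm_num), update_self]
  have s3 : ∀ a b c : LaurentSeries (ZMod p),
      Sat O (powC m 100 30) (update (update (update v 100 a) 101 b) 30 c) ↔ a ^ m = c := by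
    intro a b c
    rw [Pool.Agent.Y383.UF.sat_powC O (by norm_num) (by norm_num), update_self,
      update_of_ne (show 100 ≠ 30 by norm_num), update_of_ne (show 100 ≠ 101 by norm_num),
      update_self]
  have s4 : ∀ a b c d : LaurentSeries (ZMod p),
      Sat O (.add 31 30 101) (update (update (update (update v 100 a) 101 b) 30 c) 31 d) ↔
      d + c = b := by
    intro a b c d
    change (update (update (update (update v 100 a) 101 b) 30 c) 31 d) 31 +
      (update (update (update (update v 100 a) 101 b) 30 c) 31 d) 30 =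
      (update (update (update (update v 100 a) 101 b) 30 c) 31 d) 101 ↔ _
    rw [update_self, update_of_ne (show 30 ≠ 31 by norm_num), update_self,
      update_of_ne (show 101 ≠ 31 by norm_num), update_of_ne (show 101 ≠ 30 by norm_num),
      update_self]
  have s5 : ∀ a : LaurentSeries (ZMod p), Sat O (.eq 100 0) (update v 100 a) ↔ a = v 0 := by
    intro a
    change update v 100 a 100 = update v 100 a 0 ↔ _
    rw [update_self, update_of_ne (by norm_num)]
  simp only [DF]
  simp only [Sat.eq_8, Sat.eq_7, Sat.eq_6, s1, s2, s3, s4, s5,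
    Pool.Agent.Y514.UF.sat_ren _ O (fun i : ℕ => i + 100) hinj, hc]
  constructor
  · rintro ⟨a, rfl, z, h1, c, rfl, d, h2, h3⟩
    refine ⟨z, h1, fun w => ?_⟩
    have e : d = z - v 0 ^ m := eq_sub_of_add_eq h2
    rw [← e]
    by_contra h4
    exact h3 ⟨w, _, rfl, h4⟩
  · rintro ⟨z, h1, h2⟩
    refine ⟨_, rfl, z, h1, _, rfl, z - v 0 ^ m, sub_add_cancel _ _, ?_⟩
    rintro ⟨w, f, rfl, h3⟩
    exact h3 (h2 w)

/-- the graph of `f` is defined by `θ(x_0, x_1)` with the parameters `w` -/
def Graph (P : Set (LaurentSeries (ZMod p))) (θ : Fm) (w : ℕ → LaurentSeries (ZMod p))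
    (f : LaurentSeries (ZMod p) → LaurentSeries (ZMod p)) : Prop :=
  ∀ x y : LaurentSeries (ZMod p), Sat P θ (update (update w 0 x) 1 y) ↔ f x = y

theorem not_tame (P : Set (LaurentSeries (ZMod p))) (θ : Fm) (w : ℕ → LaurentSeries (ZMod p))
    (φ : LaurentSeries (ZMod p) →+* LaurentSeries (ZMod p)) (hθ : Graph P θ w φ)
    (a N : ℕ) (hN : ¬ p ∣ N) (hN2 : 2 ≤ N) (hφ : Mult (p ^ a * N) φ) : ¬ Tame p P := by
  intro hT
  have hq : 0 < p ^ a := Nat.pos_of_ne_zero (pow_ne_zero _ hp.out.ne_zero)
  obtain ⟨v, hvd⟩ : ∃ v : ℕ → LaurentSeries (ZMod p), v = update (fun i => w (i - 100)) 64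
    (HahnSeries.single (1 : ℤ) (1 : ZMod p)) := ⟨_, rfl⟩
  have hD : Dfn p P (DF p (p ^ a * N) (p ^ a) θ) v =
      {y | lam (p ^ a) hq (φ y) = y ^ N} := by
    ext y
    have e1 : Sat P (DF p (p ^ a * N) (p ^ a) θ) (update v 0 y) ↔ ∃ z, Sat P θ
        (update (update (fun i => update v 0 y (i + 100)) 0 (update v 0 y 0)) 1 z) ∧
      ∀ w : LaurentSeries (ZMod p),
        ((z - update v 0 y 0 ^ (p ^ a * N)) * w ^ (p ^ a)).coeff 0 = 0 := by
      refine sat_DF P _ _ θ (update v 0 y) ?_
      rw [update_of_ne (by norm_num), hvd, update_self]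
    have e2 : (fun i => update v 0 y (i + 100)) = w := by
      funext i
      rw [update_of_ne (by omega), hvd, update_of_ne (by omega), Nat.add_sub_cancel]
    rw [e2, update_self] at e1
    show Sat P (DF p (p ^ a * N) (p ^ a) θ) (update v 0 y) ↔ lam (p ^ a) hq (φ y) = y ^ N
    rw [e1, ← lam_eq_iff a hq (φ y) (y ^ N)]
    constructor
    · rintro ⟨z, h1, h2⟩ w'
      have h3 := (hθ y z).1 h1
      have h4 := h2 w'
      rwa [← h3, mul_comm (p ^ a) N, pow_mul] at h4
    · intro h
      refine ⟨φ y, (hθ y (φ y)).2 rfl, fun w' => ?_⟩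
      rw [mul_comm (p ^ a) N, pow_mul]
      exact h w'
  have hinf : ({y | lam (p ^ a) hq (φ y) = y ^ N} : Set (LaurentSeries (ZMod p))).Infinite := by
    choose y hy0 hyo hys using exists_sol hq hN hN2 hφ
    refine Set.infinite_of_injective_forall_mem (f := y) ?_ hys
    intro k l hkl
    have h1 := hyo k
    rw [hkl, hyo l] at h1
    have h2 : ((p - 1 : ℕ) : ℤ) ≠ 0 := by
      have := hp.out.one_lt
      have h3 : p - 1 ≠ 0 := by omega
      exact_mod_cast h3
    have h3 := mul_left_cancel₀ h2 h1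
    exact_mod_cast h3.symm
  have hsc : Scattered p (Dfn p P (DF p (p ^ a * N) (p ^ a) θ) v) := by
    rw [hD]
    intro S hS hne
    by_cases h0 : ∃ y ∈ S, y ≠ 0
    · obtain ⟨y, hyS, hy⟩ := h0
      refine ⟨y, hyS, y * T 1, mul_ne_zero hy (T_ne 1), ?_⟩
      rintro y' hy' ⟨z, hz, rfl⟩
      obtain ⟨z0, rfl⟩ := hz
      refine isol hq hN hN2 hφ y _ hy ?_ (hS hyS) (hS hy')
      intro i hi
      have e : (algebraMap (PowerSeries (ZMod p)) (LaurentSeries (ZMod p)) z0).coeff i =
          (((z0 : PowerSeries (ZMod p)) : LaurentSeries (ZMod p))).coeff i := rfl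
      rw [e, PowerSeries.coeff_coe, if_pos hi]
    · obtain ⟨y, hyS⟩ := hne
      push Not at h0
      refine ⟨y, hyS, 1, one_ne_zero, fun y' hy' _ => ?_⟩
      rw [h0 y hyS, h0 y' hy']
  have hfin := hT.2 _ v hsc
  rw [hD] at hfin
  exact hinf hfin

end Pool.Agent.Run7.h271.DE
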