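import Pool.Agent.Run7.h271.DE.Solve
import Pool.Agent.Y15.UF.Res

/-! # Decimation `x ↦ Σ x_{q n} t ^ n`, and endomorphisms which multiply the valuation
(helper271, for MP_db9079_lc) -/

set_option autoImplicit false

namespace Pool.Agent.Run7.h271.DE

open Function

variable {p : ℕ} [hp : Fact p.Prime]

theorem lam_bdd (q : ℕ) (hq : 0 < q) (x : LaurentSeries (ZMod p)) :
    BddBelow (Function.support fun i : ℤ => x.coeff (q * i)) := by
  refine ⟨-|x.order|, fun i hi => ?_⟩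
  by_contra hc
  apply hi
  have h1 : (1 : ℤ) ≤ q := by exact_mod_cast hq
  have h2 := neg_abs_le x.order
  have h3 := abs_nonneg x.order
  refine V_order x _ ?_
  have h4 : i < 0 := by omega
  have h5 : (q : ℤ) * i ≤ 1 * i := by
    exact mul_le_mul_of_nonpos_right h1 h4.le
  omega

/-- the series `Σ x_{q n} t ^ n` -/
noncomputable def lam (q : ℕ) (hq : 0 < q) (x : LaurentSeries (ZMod p)) :
    LaurentSeries (ZMod p) := HahnSeries.ofSuppBddBelow _ (lam_bdd q hq x)

theorem lam_coeff (q : ℕ) (hq : 0 < q) (x : LaurentSeries (ZMod p)) (i : ℤ) :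
    (lam q hq x).coeff i = x.coeff (q * i) := by
  rw [lam, HahnSeries.coeff_ofSuppBddBelow]

theorem lam_sub (q : ℕ) (hq : 0 < q) (x y : LaurentSeries (ZMod p)) :
    lam q hq (x - y) = lam q hq x - lam q hq y := by
  ext i
  rw [HahnSeries.coeff_sub, lam_coeff, lam_coeff, lam_coeff, HahnSeries.coeff_sub]

theorem V_lam {q : ℕ} (hq : 0 < q) {j : ℤ} {x : LaurentSeries (ZMod p)} (h : V (q * j) x) :
    V j (lam q hq x) := by
  intro i hi
  rw [lam_coeff]
  refine h _ ?_
  have : (0 : ℤ) < q := by exact_mod_cast hq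
  exact mul_lt_mul_of_pos_left hi this

theorem V_lam' {q : ℕ} (hq : 0 < q) {j : ℤ} {x : LaurentSeries (ZMod p)} (h : V (q * j + 1) x) :
    V (j + 1) (lam q hq x) := by
  intro i hi
  rw [lam_coeff]
  refine h _ ?_
  have : (0 : ℤ) ≤ q := by exact_mod_cast hq.le
  have h2 : (q : ℤ) * i ≤ q * j := mul_le_mul_of_nonneg_left (by omega) this
  omega

theorem coeff_pow_q (a : ℕ) : ∀ (w : LaurentSeries (ZMod p)) (n : ℤ),
    (w ^ (p ^ a)).coeff (((p ^ a : ℕ) : ℤ) * n) = w.coeff n := by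
  induction a with
  | zero => intro w n; simp
  | succ a ih =>
    intro w n
    have hp0 : (p : ℤ) ≠ 0 := by exact_mod_cast hp.out.ne_zero
    have e : (((p ^ (a + 1) : ℕ) : ℤ)) * n = (p : ℤ) * (((p ^ a : ℕ) : ℤ) * n) := by
      push_cast
      ring
    rw [pow_succ, pow_mul, ← pow_succ, e, Pool.Agent.Y15.UF.coeff_pow,
      if_pos (Dvd.intro _ rfl), Int.mul_ediv_cancel_left _ hp0, ih]

theorem coeff_pow_q_ne (a : ℕ) : ∀ (w : LaurentSeries (ZMod p)) (n : ℤ),
    ¬ ((p ^ a : ℕ) : ℤ) ∣ n → (w ^ (p ^ a)).coeff n = 0 := by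
  induction a with
  | zero => intro w n h; exact absurd (by simp) h
  | succ a ih =>
    intro w n h
    rw [pow_succ, pow_mul, Pool.Agent.Y15.UF.coeff_pow]
    split_ifs with h1
    · obtain ⟨k, rfl⟩ := h1
      have hp0 : (p : ℤ) ≠ 0 := by exact_mod_cast hp.out.ne_zero
      rw [Int.mul_ediv_cancel_left _ hp0]
      refine ih w k fun h2 => h ?_
      push_cast at h2 ⊢
      rw [pow_succ, mul_comm]
      exact mul_dvd_mul_left _ h2
    · rfl

/-- `lam q z = c` in terms of the pairing -/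
theorem lam_eq_iff (a : ℕ) (hq : 0 < p ^ a) (z c : LaurentSeries (ZMod p)) :
    (∀ w : LaurentSeries (ZMod p), ((z - c ^ (p ^ a)) * w ^ (p ^ a)).coeff 0 = 0) ↔
      lam (p ^ a) hq z = c := by
  have key : lam (p ^ a) hq z = c ↔ ∀ i : ℤ,
      (z - c ^ (p ^ a)).coeff (((p ^ a : ℕ) : ℤ) * i) = 0 := by
    constructor
    · intro h i
      rw [HahnSeries.coeff_sub, coeff_pow_q, ← h, lam_coeff, sub_self]
    · intro h
      ext i
      have h1 := h i
      rw [HahnSeries.coeff_sub, coeff_pow_q, sub_eq_zero] at h1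
      rw [lam_coeff, h1]
  rw [key]
  constructor
  · intro h i
    have h1 := h (HahnSeries.single (-i) 1)
    have e : (HahnSeries.single (-i) (1 : ZMod p)) ^ (p ^ a) =
        HahnSeries.single (-(((p ^ a : ℕ) : ℤ) * i)) (1 : ZMod p) := by
      rw [HahnSeries.single_pow, one_pow, nsmul_eq_mul, mul_neg]
    rw [e] at h1
    have h2 := HahnSeries.coeff_mul_single_add (r := (1 : ZMod p)) (x := z - c ^ (p ^ a))
      (a := ((p ^ a : ℕ) : ℤ) * i) (b := -(((p ^ a : ℕ) : ℤ) * i))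
    rw [add_neg_cancel, mul_one] at h2
    rw [← h2, h1]
  · intro h w
    rw [HahnSeries.coeff_mul]
    refine Finset.sum_eq_zero fun ij hij => ?_
    rw [Finset.mem_antidiagonal] at hij
    obtain ⟨_, _, h3⟩ := hij
    by_cases hd : ((p ^ a : ℕ) : ℤ) ∣ ij.2
    · obtain ⟨k, hk⟩ := hd
      have e : ij.1 = ((p ^ a : ℕ) : ℤ) * (-k) := by
        rw [mul_neg, ← hk]
        omega
      rw [e, h, zero_mul]
    · rw [coeff_pow_q_ne a w _ hd, mul_zero]

end Pool.Agent.Run7.h271.DE
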