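import Pool.Agent.Run7.h271.DE.Val

/-! # Solution of `Ψ(w) = w ^ N` in one-units for contracting `Ψ` (helper271, for MP_db9079_lc) -/

set_option autoImplicit false

namespace Pool.Agent.Run7.h271.DE

open Function

variable {p : ℕ} [hp : Fact p.Prime]

theorem eq_zero_of_V {x : LaurentSeries (ZMod p)} (h : ∀ k : ℕ, V (k : ℤ) x) : x = 0 := by
  ext i
  exact h (i.toNat + 1) i (by push_cast; omega)

theorem limit (y : ℕ → LaurentSeries (ZMod p)) (h0 : V 0 (y 0))
    (h : ∀ k : ℕ, V ((k : ℤ) + 1) (y (k + 1) - y k)) :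
    ∃ z, ∀ k : ℕ, V ((k : ℤ) + 1) (z - y k) := by
  have hst : ∀ j k : ℕ, j ≤ k → ∀ i : ℤ, i < j + 1 → (y k).coeff i = (y j).coeff i := by
    intro j k hjk i hi
    induction k, hjk using Nat.le_induction with
    | base => rfl
    | succ l hl ih =>
      have h1 := h l i (by omega)
      rw [HahnSeries.coeff_sub, sub_eq_zero] at h1
      rw [h1, ih]
  have hb : BddBelow (Function.support fun i : ℤ => (y i.toNat).coeff i) := by
    refine ⟨0, fun i hi => ?_⟩
    by_contra hc
    apply hi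
    have : i.toNat = 0 := by omega
    show (y i.toNat).coeff i = 0
    rw [this]
    exact h0 i (by omega)
  refine ⟨HahnSeries.ofSuppBddBelow _ hb, fun k i hi => ?_⟩
  rw [HahnSeries.coeff_sub, HahnSeries.coeff_ofSuppBddBelow]
  show (y i.toNat).coeff i - (y k).coeff i = 0
  by_cases hk : i.toNat ≤ k
  · rw [hst i.toNat k hk i (by omega), sub_self]
  · rw [hst k i.toNat (by omega) i hi, sub_self]

theorem V_smul {k : ℤ} {x : LaurentSeries (ZMod p)} (hx : V k x) (n : ℕ) :
    V k ((n : LaurentSeries (ZMod p)) * x) := by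
  induction n with
  | zero => simp only [Nat.cast_zero, zero_mul]; exact V_zero k
  | succ n ih =>
    rw [Nat.cast_succ, add_mul, one_mul]
    exact V_add ih hx

theorem V_step {j : ℤ} (hj : 1 ≤ j) {w s : LaurentSeries (ZMod p)} (hw : V 1 (w - 1))
    (hs : V j s) (N : ℕ) :
    V (j + 1) ((w + s) ^ N - w ^ N - (N : LaurentSeries (ZMod p)) * s) := by
  have hw0 : V 0 w := V_of_one hw
  have hs0 : V 0 s := hs.mono (by omega)
  induction N with
  | zero => simp only [pow_zero, sub_self, Nat.cast_zero, zero_mul]; exact V_zero _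
  | succ N ih =>
    have e : (w + s) ^ (N + 1) - w ^ (N + 1) - ((N + 1 : ℕ) : LaurentSeries (ZMod p)) * s =
        (w + s) * ((w + s) ^ N - w ^ N - (N : LaurentSeries (ZMod p)) * s) +
        ((N : LaurentSeries (ZMod p)) * ((w - 1) * s) + ((w ^ N - 1) * s +
          (N : LaurentSeries (ZMod p)) * (s * s))) := by
      push_cast
      ring
    rw [e]
    refine V_add ?_ (V_add ?_ (V_add ?_ ?_))
    · have := V_mul (V_add hw0 hs0) ih
      rwa [zero_add] at this
    · refine V_smul ?_ N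
      have := V_mul hw hs
      rwa [add_comm] at this
    · have := V_mul (V_one_pow (le_refl 1) hw N) hs
      rwa [add_comm] at this
    · refine V_smul ?_ N
      exact (V_mul hs hs).mono (by omega)

theorem solve (N : ℕ) (hN : ¬ p ∣ N) (Ψ : LaurentSeries (ZMod p) → LaurentSeries (ZMod p))
    (h1 : ∀ k : ℤ, 1 ≤ k → ∀ w w' : LaurentSeries (ZMod p), V k (w - w') →
      V (k + 1) (Ψ w - Ψ w'))
    (h2 : V 1 (Ψ 1 - 1)) : ∃ w : LaurentSeries (ZMod p), V 1 (w - 1) ∧ Ψ w = w ^ N := by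
  classical
  have hN0 : (N : ZMod p) ≠ 0 := fun h => hN ((ZMod.natCast_eq_zero_iff N p).1 h)
  have step : ∀ k : ℕ, ∀ w : LaurentSeries (ZMod p), V 1 (w - 1) →
      V ((k : ℤ) + 1) (Ψ w - w ^ N) → ∃ w' : LaurentSeries (ZMod p), V 1 (w' - 1) ∧
        V ((k : ℤ) + 1) (w' - w) ∧ V (((k + 1 : ℕ) : ℤ) + 1) (Ψ w' - w' ^ N) := by
    intro k w hw hV
    obtain ⟨D, hD⟩ : ∃ D, D = Ψ w - w ^ N := ⟨_, rfl⟩
    obtain ⟨s, hs⟩ : ∃ s : LaurentSeries (ZMod p),
      s = HahnSeries.single ((k : ℤ) + 1) (D.coeff ((k : ℤ) + 1) / (N : ZMod p)) := ⟨_, rfl⟩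
    have hVs : V ((k : ℤ) + 1) s := fun i hi => by
      rw [hs, HahnSeries.coeff_single_of_ne hi.ne]
    have hNs : (N : LaurentSeries (ZMod p)) * s =
        HahnSeries.single ((k : ℤ) + 1) (D.coeff ((k : ℤ) + 1)) := by
      have e : (N : LaurentSeries (ZMod p)) = HahnSeries.C (N : ZMod p) := by
        rw [map_natCast]
      rw [e, hs, HahnSeries.C_apply, HahnSeries.single_mul_single, zero_add,
        mul_div_cancel₀ _ hN0]
    refine ⟨w + s, ?_, ?_, ?_⟩
    · have e : w + s - 1 = (w - 1) + s := by ring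
      rw [e]
      exact V_add hw (hVs.mono (by omega))
    · have e : w + s - w = s := by ring
      rw [e]
      exact hVs
    · have e : Ψ (w + s) - (w + s) ^ N = (Ψ (w + s) - Ψ w) +
          ((D - (N : LaurentSeries (ZMod p)) * s) -
            ((w + s) ^ N - w ^ N - (N : LaurentSeries (ZMod p)) * s)) := by
        rw [hD]
        ring
      rw [e]
      push_cast
      refine V_add ?_ (V_sub ?_ ?_)
      · refine h1 _ (by omega) _ _ ?_
        have e : w + s - w = s := by ring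
        rw [e]
        exact hVs
      · intro i hi
        rw [hNs, HahnSeries.coeff_sub]
        rcases (show i < (k : ℤ) + 1 ∨ i = (k : ℤ) + 1 by omega) with h | rfl
        · rw [HahnSeries.coeff_single_of_ne h.ne, sub_zero, hD]
          exact hV i h
        · rw [HahnSeries.coeff_single_same, sub_self]
      · exact V_step (by omega) hw hVs N
  -- the sequence
  let P : ℕ → LaurentSeries (ZMod p) → Prop := fun k w =>
    V 1 (w - 1) ∧ V ((k : ℤ) + 1) (Ψ w - w ^ N)
  have hP0 : P 0 1 := by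
    refine ⟨by rw [sub_self]; exact V_zero _, ?_⟩
    rw [one_pow]
    simpa using h2
  have hst : ∀ (k : ℕ) (w : {w // P k w}), ∃ w' : {w // P (k + 1) w},
      V ((k : ℤ) + 1) (w'.1 - w.1) := by
    rintro k ⟨w, hw1, hw2⟩
    obtain ⟨w', h3, h4, h5⟩ := step k w hw1 hw2
    exact ⟨⟨w', h3, h5⟩, h4⟩
  choose F hF using hst
  let y : (k : ℕ) → {w // P k w} := fun k => Nat.rec ⟨1, hP0⟩ (fun k w => F k w) k
  have hy : ∀ k, (y (k + 1)) = F k (y k) := fun k => rfl
  obtain ⟨z, hz⟩ := limit (fun k => (y k).1) (by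
    show V 0 (1 : LaurentSeries (ZMod p))
    exact V_one) (fun k => by
      show V ((k : ℤ) + 1) ((y (k + 1)).1 - (y k).1)
      rw [hy]
      exact hF k (y k))
  have hz1 : V 1 (z - 1) := by
    have h3 := hz 0
    have h4 : (y 0).1 = 1 := rfl
    simp only [h4, Nat.cast_zero, zero_add] at h3
    exact h3
  refine ⟨z, hz1, ?_⟩
  rw [← sub_eq_zero]
  refine eq_zero_of_V fun k => ?_
  have e : Ψ z - z ^ N = (Ψ z - Ψ (y k).1) + ((Ψ (y k).1 - (y k).1 ^ N) -
      (z ^ N - (y k).1 ^ N)) := by ring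
  rw [e]
  refine V_add ?_ (V_sub ?_ ?_)
  · exact (h1 _ (by omega) _ _ (hz k)).mono (by omega)
  · exact ((y k).2.2).mono (by omega)
  · exact (V_pow_sub (hz k) (V_of_one hz1) (V_of_one (y k).2.1) N).mono (by omega)

end Pool.Agent.Run7.h271.DE
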