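import Mathlib

/-! # Valuations in `F_p((t))` (copied from the file of helper755) -/

set_option autoImplicit false

namespace Pool.Agent.Run7.h271.DE

open Function

variable {p : ℕ} [hp : Fact p.Prime]

/-- the valuation is at least `k` -/
def V (k : ℤ) (z : LaurentSeries (ZMod p)) : Prop := ∀ i < k, z.coeff i = 0

theorem V.mono {k l : ℤ} {z : LaurentSeries (ZMod p)} (h : V l z) (hkl : k ≤ l) : V k z :=
  fun i hi => h i (by omega)

theorem V_zero (k : ℤ) : V (p := p) k 0 := fun _ _ => rfl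

theorem V_add {k : ℤ} {x y : LaurentSeries (ZMod p)} (hx : V k x) (hy : V k y) : V k (x + y) :=
  fun i hi => by rw [HahnSeries.coeff_add, hx i hi, hy i hi, add_zero]

theorem V_sub {k : ℤ} {x y : LaurentSeries (ZMod p)} (hx : V k x) (hy : V k y) : V k (x - y) :=
  fun i hi => by rw [HahnSeries.coeff_sub, hx i hi, hy i hi, sub_zero]

theorem V_neg {k : ℤ} {x : LaurentSeries (ZMod p)} (hx : V k x) : V k (-x) :=
  fun i hi => by rw [HahnSeries.coeff_neg, hx i hi, neg_zero]

theorem V_mul {k l : ℤ} {x y : LaurentSeries (ZMod p)} (hx : V k x) (hy : V l y) :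
    V (k + l) (x * y) := by
  intro i hi
  rw [HahnSeries.coeff_mul]
  refine Finset.sum_eq_zero fun ij hij => ?_
  rw [Finset.mem_antidiagonal] at hij
  obtain ⟨h1, h2, h3⟩ := hij
  rw [HahnSeries.mem_support] at h1 h2
  have h4 : k ≤ ij.1 := by
    by_contra h
    exact h1 (hx _ (not_le.1 h))
  have h5 : l ≤ ij.2 := by
    by_contra h
    exact h2 (hy _ (not_le.1 h))
  omega

theorem coeff_zero_of_V {k l : ℤ} {x y : LaurentSeries (ZMod p)} (hx : V k x) (hy : V l y)
    (h : 0 < k + l) : (x * y).coeff 0 = 0 := V_mul hx hy 0 h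

theorem V_one : V (p := p) 0 1 := fun i hi => by
  rw [HahnSeries.coeff_one, if_neg (by omega)]

theorem V_pow {x : LaurentSeries (ZMod p)} (hx : V 0 x) (n : ℕ) : V 0 (x ^ n) := by
  induction n with
  | zero => rw [pow_zero]; exact V_one
  | succ n ih => rw [pow_succ]; exact V_mul ih hx

theorem V_powk {k : ℤ} (hk : 0 ≤ k) {x : LaurentSeries (ZMod p)} (hx : V k x) {n : ℕ}
    (hn : 0 < n) : V k (x ^ n) := by
  obtain ⟨m, rfl⟩ : ∃ m, n = m + 1 := ⟨n - 1, by omega⟩
  rw [pow_succ]
  have h := V_mul (V_pow (hx.mono hk) m) hx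
  rwa [zero_add] at h

theorem V_pow_sub {k : ℤ} {a b : LaurentSeries (ZMod p)} (h : V k (a - b)) (ha : V 0 a)
    (hb : V 0 b) (n : ℕ) : V k (a ^ n - b ^ n) := by
  induction n with
  | zero => rw [pow_zero, pow_zero, sub_self]; exact V_zero k
  | succ n ih =>
    have h1 : a ^ (n + 1) - b ^ (n + 1) = a * (a ^ n - b ^ n) + (a - b) * b ^ n := by ring
    rw [h1]
    refine V_add ?_ ?_
    · have h2 := V_mul ha ih
      rwa [zero_add] at h2
    · have h2 := V_mul h (V_pow hb n)
      rwa [add_zero] at h2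

theorem V_order (x : LaurentSeries (ZMod p)) : V x.order x := fun _ hi =>
  HahnSeries.coeff_eq_zero_of_lt_order hi

theorem exists_V (x : LaurentSeries (ZMod p)) : ∃ k : ℤ, V k x := ⟨_, V_order x⟩

theorem coeff_order_ne {x : LaurentSeries (ZMod p)} (hx : x ≠ 0) : x.coeff x.order ≠ 0 :=
  fun h => hx (HahnSeries.coeff_order_eq_zero.1 h)

theorem V_inv {w : LaurentSeries (ZMod p)} (h : V 1 (w - 1)) : V 0 w⁻¹ := by
  have h0 : w.coeff 0 = 1 := by
    have := h 0 (by norm_num)
    rw [HahnSeries.coeff_sub, HahnSeries.coeff_one, if_pos rfl, sub_eq_zero] at this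
    exact this
  have hw : w ≠ 0 := by
    rintro rfl
    exact zero_ne_one h0
  have hwi : w⁻¹ ≠ 0 := inv_ne_zero hw
  have hV : V 0 w := by
    have h1 : w = (w - 1) + 1 := by ring
    rw [h1]
    exact V_add (h.mono (by norm_num)) V_one
  have ho : w.order = 0 := by
    apply le_antisymm
    · exact HahnSeries.order_le_of_coeff_ne_zero (by rw [h0]; exact one_ne_zero)
    · by_contra hc
      exact coeff_order_ne hw (hV _ (not_le.1 hc))
  have h2 := HahnSeries.order_mul hw hwi
  rw [mul_inv_cancel₀ hw, HahnSeries.order_one, ho, zero_add] at h2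
  rw [h2]
  exact V_order _

theorem V_of_one {w : LaurentSeries (ZMod p)} (h : V 1 (w - 1)) : V 0 w := by
  have h1 : w = (w - 1) + 1 := by ring
  rw [h1]
  exact V_add (h.mono (by norm_num)) V_one

theorem V_one_pow {k : ℤ} (hk : 1 ≤ k) {w : LaurentSeries (ZMod p)} (h : V k (w - 1)) (n : ℕ) :
    V k (w ^ n - 1) := by
  have h1 := V_pow_sub h (V_of_one (h.mono hk)) V_one n
  rwa [one_pow] at h1

theorem V_one_zpow {k : ℤ} (hk : 1 ≤ k) {w : LaurentSeries (ZMod p)} (h : V k (w - 1)) (n : ℤ) :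
    V k (w ^ n - 1) := by
  obtain ⟨m, rfl | rfl⟩ := n.eq_nat_or_neg
  · rw [zpow_natCast]
    exact V_one_pow hk h m
  · have h1 : V 1 (w - 1) := h.mono hk
    have hw : w ≠ 0 := by
      rintro rfl
      have := h1 0 (by norm_num)
      rw [HahnSeries.coeff_sub, HahnSeries.coeff_one, if_pos rfl] at this
      simp at this
    have h2 : w ^ (-(m : ℤ)) - 1 = - ((w⁻¹) ^ m * (w ^ m - 1)) := by
      rw [zpow_neg, zpow_natCast, inv_pow]
      have := pow_ne_zero m hw
      field_simp
      ring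
    rw [h2]
    refine V_neg ?_
    have h3 := V_mul (V_pow (V_inv h1) m) (V_one_pow hk h m)
    rwa [zero_add] at h3

end Pool.Agent.Run7.h271.DE
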